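import Pool.Agent.Y465.SZ.Alg

/-!
Pages of a direct sum of filtered graded modules (`Pool.Agent.Y465.SZ.S_PAG`).
-/

set_option autoImplicit false

namespace Pool.Agent.Y658.SZ

open Pool.Agent.Y465.SZ

theorem pag : S_PAG := by
  intro V V1 V2 _ _ _ _ _ _ F F1 F2 d d1 d2 e hF hd k a s
  have hZ : ∀ (k : ℕ) (a s : ℤ) (x : V1 × V2),
      e x ∈ Zp F d k a s ↔ x.1 ∈ Zp F1 d1 k a s ∧ x.2 ∈ Zp F2 d2 k a s := by
    intro k a s x
    simp only [Zp, Submodule.mem_inf, Submodule.mem_comap, hd, hF]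
    tauto
  have hB : ∀ x : V1 × V2,
      e x ∈ (Zp F d (k - 1) (a + 1) s ⊔ (Zp F d (k - 1) (a - k + 1) (s + 2)).map d) ↔
      x.1 ∈ (Zp F1 d1 (k - 1) (a + 1) s ⊔ (Zp F1 d1 (k - 1) (a - k + 1) (s + 2)).map d1) ∧
      x.2 ∈ (Zp F2 d2 (k - 1) (a + 1) s ⊔ (Zp F2 d2 (k - 1) (a - k + 1) (s + 2)).map d2) := by
    intro x
    constructor
    · intro h
      obtain ⟨y, hy, z, hz, hyz⟩ := Submodule.mem_sup.mp h
      obtain ⟨w, hw, rfl⟩ := Submodule.mem_map.mp hz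
      obtain ⟨y', rfl⟩ := e.surjective y
      obtain ⟨w', rfl⟩ := e.surjective w
      rw [hZ] at hy hw
      have hx : y' + (d1 w'.1, d2 w'.2) = x := by
        apply e.injective
        rw [map_add, ← hd, hyz]
      subst hx
      exact ⟨Submodule.mem_sup.mpr
          ⟨y'.1, hy.1, d1 w'.1, Submodule.mem_map_of_mem hw.1, rfl⟩,
        Submodule.mem_sup.mpr ⟨y'.2, hy.2, d2 w'.2, Submodule.mem_map_of_mem hw.2, rfl⟩⟩
    · rintro ⟨h1, h2⟩
      obtain ⟨y1, hy1, z1, hz1, e1⟩ := Submodule.mem_sup.mp h1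
      obtain ⟨y2, hy2, z2, hz2, e2⟩ := Submodule.mem_sup.mp h2
      obtain ⟨w1, hw1, rfl⟩ := Submodule.mem_map.mp hz1
      obtain ⟨w2, hw2, rfl⟩ := Submodule.mem_map.mp hz2
      refine Submodule.mem_sup.mpr ⟨e (y1, y2), (hZ _ _ _ _).mpr ⟨hy1, hy2⟩,
        d (e (w1, w2)), Submodule.mem_map_of_mem ((hZ _ _ _ _).mpr ⟨hw1, hw2⟩), ?_⟩
      rw [hd, ← map_add]
      congr 1
      exact Prod.ext e1 e2
  have hsym : ∀ x : Zp F d k a s, (e.symm (x : V)).1 ∈ Zp F1 d1 k a s ∧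
      (e.symm (x : V)).2 ∈ Zp F2 d2 k a s := by
    intro x
    rw [← hZ, LinearEquiv.apply_symm_apply]
    exact x.2
  let f1 : Zp F d k a s →ₗ[ZMod 2] Zp F1 d1 k a s :=
    LinearMap.codRestrict (Zp F1 d1 k a s)
      ((LinearMap.fst (ZMod 2) V1 V2).comp (e.symm.toLinearMap.comp (Zp F d k a s).subtype))
      (fun x => (hsym x).1)
  let f2 : Zp F d k a s →ₗ[ZMod 2] Zp F2 d2 k a s :=
    LinearMap.codRestrict (Zp F2 d2 k a s)
      ((LinearMap.snd (ZMod 2) V1 V2).comp (e.symm.toLinearMap.comp (Zp F d k a s).subtype))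
      (fun x => (hsym x).2)
  let φ : Zp F d k a s →ₗ[ZMod 2] (Page F1 d1 k a s × Page F2 d2 k a s) :=
    LinearMap.prod ((Submodule.mkQ _).comp f1) ((Submodule.mkQ _).comp f2)
  have hf1 : ∀ x, (f1 x : V1) = (e.symm (x : V)).1 := fun x => rfl
  have hf2 : ∀ x, (f2 x : V2) = (e.symm (x : V)).2 := fun x => rfl
  have hφ : Function.Surjective φ := by
    rintro ⟨u, v⟩
    obtain ⟨u, rfl⟩ := Submodule.mkQ_surjective _ u
    obtain ⟨v, rfl⟩ := Submodule.mkQ_surjective _ v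
    refine ⟨⟨e (u, v), (hZ _ _ _ _).mpr ⟨u.2, v.2⟩⟩, ?_⟩
    refine Prod.ext ?_ ?_
    · change Submodule.mkQ _ (f1 _) = Submodule.mkQ _ u
      congr 1
      apply Subtype.ext
      rw [hf1]
      simp
    · change Submodule.mkQ _ (f2 _) = Submodule.mkQ _ v
      congr 1
      apply Subtype.ext
      rw [hf2]
      simp
  have hker : Submodule.comap (Zp F d k a s).subtype
      (Zp F d (k - 1) (a + 1) s ⊔ (Zp F d (k - 1) (a - k + 1) (s + 2)).map d) =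
      LinearMap.ker φ := by
    ext x
    rw [LinearMap.mem_ker, Submodule.mem_comap]
    have h1 : φ x = 0 ↔ Submodule.mkQ (Submodule.comap (Zp F1 d1 k a s).subtype
        (Zp F1 d1 (k - 1) (a + 1) s ⊔ (Zp F1 d1 (k - 1) (a - k + 1) (s + 2)).map d1)) (f1 x) = 0 ∧
      Submodule.mkQ (Submodule.comap (Zp F2 d2 k a s).subtype
        (Zp F2 d2 (k - 1) (a + 1) s ⊔ (Zp F2 d2 (k - 1) (a - k + 1) (s + 2)).map d2)) (f2 x) = 0 :=
      Prod.ext_iff
    rw [h1, Submodule.mkQ_apply, Submodule.mkQ_apply, Submodule.Quotient.mk_eq_zero,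
      Submodule.Quotient.mk_eq_zero, Submodule.mem_comap, Submodule.mem_comap]
    have h2 := hB (e.symm (x : V))
    rw [LinearEquiv.apply_symm_apply] at h2
    exact h2
  exact ⟨(Submodule.quotEquivOfEq _ _ hker).trans (LinearMap.quotKerEquivOfSurjective φ hφ)⟩

end Pool.Agent.Y658.SZ
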